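import Mathlib

set_option autoImplicit false
open Finset

namespace Pool.Agent.H.MP_55e671_nt

/-- positive definiteness with a constant part of size `δ` -/
def PD (δ : ℝ) (G : ℚ × ℚ → ℝ) : Prop :=
  ∀ (ι : Type) [Fintype ι] (P : ι → ℚ × ℚ) (c : ι → ℝ),
    δ * (∑ i, c i) ^ 2 ≤ ∑ i, ∑ j, c i * c j * G (P i - P j)

theorem cs2 {δ : ℝ} (hδ : 0 ≤ δ) {G : ℚ × ℚ → ℝ} (hpd : PD δ G) (hs : ∀ P, G (-P) = G P)
    (h1 : G 0 ≤ 1) (ι : Type) [Fintype ι] (P0 : ℚ × ℚ) (f g : ι → ℚ × ℚ) :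
    (∑ i, G (P0 - f i) - ∑ i, G (P0 - g i)) ^ 2 ≤
      ∑ i, ∑ j, G (f i - f j) + ∑ i, ∑ j, G (g i - g j) - 2 * ∑ i, ∑ j, G (f i - g j) := by
  set X := ∑ i, G (P0 - f i) - ∑ i, G (P0 - g i) with hX
  have h := hpd (Option (ι ⊕ ι)) (fun o => o.elim P0 (Sum.elim f g))
    (fun o => o.elim (-X) (Sum.elim (fun _ => 1) (fun _ => -1)))
  have h0 : 0 ≤ δ * (∑ i : Option (ι ⊕ ι),
      (fun o : Option (ι ⊕ ι) => o.elim (-X) (Sum.elim (fun _ => (1 : ℝ)) (fun _ => -1))) i) ^ 2 := by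
    positivity
  have h2 := h0.trans h
  simp only [Fintype.sum_option, Fintype.sum_sum_type, Option.elim, Sum.elim_inl, Sum.elim_inr,
    sum_add_distrib, sub_self, mul_one, one_mul, mul_neg, neg_mul, sum_neg_distrib,
    ← mul_sum] at h2
  have e1 : ∑ i, G (f i - P0) = ∑ i, G (P0 - f i) :=
    sum_congr rfl fun i _ => by rw [← hs, neg_sub]
  have e2 : ∑ i, G (g i - P0) = ∑ i, G (P0 - g i) :=
    sum_congr rfl fun i _ => by rw [← hs, neg_sub]
  have e3 : ∑ i, ∑ j, G (g i - f j) = ∑ i, ∑ j, G (f i - g j) := by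
    rw [sum_comm]
    exact sum_congr rfl fun i _ => sum_congr rfl fun j _ => by rw [← hs, neg_sub]
  rw [e1, e2, e3] at h2
  have e4 : X * ∑ i, G (P0 - f i) - X * ∑ i, G (P0 - g i) = X ^ 2 := by rw [← mul_sub, ← hX]; ring
  have e5 : X * X * G 0 ≤ X ^ 2 := by nlinarith [sq_nonneg X]
  linarith

theorem lemD {δ : ℝ} (hδ : 0 ≤ δ) {G : ℚ × ℚ → ℝ} (hpd : PD δ G) (hs : ∀ P, G (-P) = G P)
    (hb : ∀ P, |G P| ≤ 1) (hi : ∀ l : ℚ, l ≠ 0 → ∀ a b : ℚ, G (l * a, b / l) = G (a, b))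
    (n : ℕ) (f g : Fin n → ℚ) (hf : Function.Injective f) (hg : Function.Injective g) :
    (∑ i, G (1, f i) - ∑ i, G (1, g i)) ^ 2 ≤ 4 * n := by
  have hk : ∀ b : ℚ, b ≠ 0 → G (0, b) = G (0, 1) := by
    intro b hb0
    have := hi b hb0 0 b
    rw [mul_zero, div_self hb0] at this
    exact this.symm
  have h01 : G (0, 1) ≤ G 0 := by
    have h := hpd (Fin 2) ![(0, 1), 0] ![1, -1]
    have h' := hs (0, 1)
    simp only [Fin.sum_univ_two, Matrix.cons_val_zero, Matrix.cons_val_one, sub_self, sub_zero,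
      zero_sub] at h
    rw [h'] at h
    nlinarith
  have h := cs2 hδ hpd hs (le_trans (le_abs_self _) (hb 0)) (Fin n) (1, 0)
    (fun i => (0, -f i)) (fun i => (0, -g i))
  simp only [Prod.mk_sub_mk, sub_zero, zero_sub, neg_neg] at h
  have diag : ∀ u : Fin n → ℚ, Function.Injective u →
      ∑ i, ∑ j, G (0, -u i - -u j) ≤ n * (n * G (0, 1) + 2) := by
    intro u hu
    have : ∀ i, ∑ j, G (0, -u i - -u j) ≤ n * G (0, 1) + 2 := by
      intro i
      have h3 : ∀ j, G (0, -u i - -u j) ≤ G (0, 1) + (if i = j then 2 else 0) := by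
        intro j
        split_ifs with hij
        · have a1 := abs_le.1 (hb (0, -u i - -u j))
          have a2 := abs_le.1 (hb (0, 1))
          linarith
        · rw [hk, add_zero]
          intro h0
          exact hij (hu (by linarith))
      calc _ ≤ ∑ j, (G (0, 1) + (if i = j then 2 else 0)) := sum_le_sum fun j _ => h3 j
        _ = _ := by simp [sum_add_distrib]
    calc _ ≤ ∑ _i : Fin n, (n * G (0, 1) + 2) := sum_le_sum fun i _ => this i
      _ = _ := by simp; ring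
  have off : (n : ℝ) * (n * G (0, 1)) ≤ ∑ i, ∑ j, G (0, -f i - -g j) := by
    have h3 : ∀ i j, G (0, 1) ≤ G (0, -f i - -g j) := by
      intro i j
      by_cases h0 : -f i - -g j = 0
      · rw [h0]; exact h01
      · rw [hk _ h0]
    calc _ = ∑ _i : Fin n, ∑ _j : Fin n, G (0, 1) := by simp
      _ ≤ _ := sum_le_sum fun i _ => sum_le_sum fun j _ => h3 i j
  have d1 := diag f hf
  have d2 := diag g hg
  linarith

theorem no_inv {δ : ℝ} (hδ : 0 < δ) {G : ℚ × ℚ → ℝ} (hpd : PD δ G) (hs : ∀ P, G (-P) = G P)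
    (hb : ∀ P, |G P| ≤ 1) (hi : ∀ l : ℚ, l ≠ 0 → ∀ a b : ℚ, G (l * a, b / l) = G (a, b))
    (hz : ∀ t : ℚ, t ≠ 0 → G (t, t⁻¹) = 0) : False := by
  obtain ⟨r, hr⟩ := exists_nat_gt (20 / δ)
  have hr0 : (0 : ℝ) < r := lt_trans (by positivity) hr
  have hr1 : (1 : ℝ) ≤ r := by
    have : 0 < r := by exact_mod_cast hr0
    exact_mod_cast this
  set n := r ^ 4 with hn
  have hnr : (n : ℝ) = (r : ℝ) ^ 4 := by rw [hn]; push_cast; ring
  let p : Fin n → ℕ := fun i => Nat.nth Nat.Prime i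
  have pp : ∀ i, (p i).Prime := fun i => Nat.prime_nth_prime _
  have pinj : Function.Injective p := fun i j h =>
    Fin.ext (Nat.nth_injective Nat.infinite_setOfPred_prime h)
  have p0 : ∀ i, ((p i : ℕ) : ℚ) ≠ 0 := fun i => by exact_mod_cast (pp i).ne_zero
  have hK : ∀ a b : ℚ, a ≠ 0 → G (a, b) = G (1, a * b) := by
    intro a b ha
    have := hi a⁻¹ (inv_ne_zero ha) a b
    rw [inv_mul_cancel₀ ha, div_inv_eq_mul, mul_comm] at this
    exact this.symm
  have hD : ∀ f g : Fin n → ℚ, Function.Injective f → Function.Injective g →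
      |∑ i, G (1, f i) - ∑ i, G (1, g i)| ≤ 2 * (r : ℝ) ^ 2 := by
    intro f g hf hg
    apply abs_le_of_sq_le_sq' _ (by positivity) |> abs_le.2
    have := lemD hδ.le hpd hs hb hi n f g hf hg
    rw [hnr] at this
    nlinarith
  have hE : ∀ (j : Fin n) (b : Fin n → ℚ),
      |∑ i, G ((p i : ℚ) - p j, b i) - ∑ i, G (1, ((p i : ℚ) - p j) * b i)| ≤ 2 := by
    intro j b
    rw [← sum_sub_distrib]
    have h3 : ∀ i, |G ((p i : ℚ) - p j, b i) - G (1, ((p i : ℚ) - p j) * b i)| ≤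
        (if j = i then 2 else 0) := by
      intro i
      split_ifs with hij
      · have a1 := abs_le.1 (hb ((p i : ℚ) - p j, b i))
        have a2 := abs_le.1 (hb (1, ((p i : ℚ) - p j) * b i))
        rw [abs_le]; constructor <;> linarith
      · rw [← hK, sub_self, abs_zero]
        intro h0
        have : (p j : ℚ) = p i := by linarith
        exact hij (pinj (by exact_mod_cast this))
    calc _ ≤ _ := abs_sum_le_sum_abs _ _
      _ ≤ ∑ i, (if j = i then (2 : ℝ) else 0) := sum_le_sum fun i _ => h3 i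
      _ = 2 := by simp
  have inj0 : Function.Injective fun i => (p i : ℚ) * ((p i : ℚ)⁻¹ + 1) := by
    intro i j h
    simp only [mul_add, mul_inv_cancel₀ (p0 _), mul_one] at h
    have : (p i : ℚ) = p j := by linarith
    exact pinj (by exact_mod_cast this)
  have inj1 : ∀ j, Function.Injective fun i => ((p i : ℚ) - p j) * ((p i : ℚ)⁻¹ - (p j : ℚ)⁻¹) := by
    intro j i k h
    by_contra hne
    have hne' : (p i : ℚ) - p k ≠ 0 := by
      intro h0
      have : (p i : ℚ) = p k := by linarith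
      exact hne (pinj (by exact_mod_cast this))
    have hi0 := p0 i
    have hj0 := p0 j
    have hk0 := p0 k
    have h2 : ((p i : ℚ) - p k) * ((p j : ℚ) ^ 2 - p i * p k) = 0 := by
      simp only at h
      field_simp at h
      linarith
    have h3 : (p j : ℚ) ^ 2 = p i * p k := by
      rcases mul_eq_zero.1 h2 with h | h
      · exact absurd h hne'
      · linarith
    have h4 : p j ^ 2 = p i * p k := by exact_mod_cast h3
    have h5 : p i = p j :=
      (Nat.prime_dvd_prime_iff_eq (pp i) (pp j)).1 ((pp i).dvd_of_dvd_pow ⟨_, h4⟩)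
    have h6 : p k = p j :=
      (Nat.prime_dvd_prime_iff_eq (pp k) (pp j)).1 ((pp k).dvd_of_dvd_pow ⟨_, h4.trans (mul_comm _ _)⟩)
    exact hne (pinj (h5.trans h6.symm))
  have inj2 : ∀ j, Function.Injective
      fun i => ((p i : ℚ) - p j) * ((p i : ℚ)⁻¹ - ((p j : ℚ)⁻¹ + 1)) := by
    intro j i k h
    by_contra hne
    have hne' : (p i : ℚ) - p k ≠ 0 := by
      intro h0
      have : (p i : ℚ) = p k := by linarith
      exact hne (pinj (by exact_mod_cast this))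
    have hi0 := p0 i
    have hj0 := p0 j
    have hk0 := p0 k
    have h2 : ((p i : ℚ) - p k) * ((p j : ℚ) ^ 2 - p i * p k * (1 + p j)) = 0 := by
      simp only at h
      field_simp at h
      linarith
    have h3 : (p j : ℚ) ^ 2 = p i * p k * (1 + p j) := by
      rcases mul_eq_zero.1 h2 with h | h
      · exact absurd h hne'
      · linarith
    have h4 : p j ^ 2 = p i * p k * (1 + p j) := by exact_mod_cast h3
    have h5 : p i = p j :=
      (Nat.prime_dvd_prime_iff_eq (pp i) (pp j)).1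
        ((pp i).dvd_of_dvd_pow ⟨_, h4.trans (mul_assoc _ _ _)⟩)
    have h6 : p k = p j :=
      (Nat.prime_dvd_prime_iff_eq (pp k) (pp j)).1
        ((pp k).dvd_of_dvd_pow ⟨p i * (1 + p j), by rw [h4]; ring⟩)
    exact hne (pinj (h5.trans h6.symm))
  set C := ∑ i, G (1, (p i : ℚ) * ((p i : ℚ)⁻¹ + 1)) with hC
  set Y := ∑ i, ∑ j, G ((p i : ℚ) - p j, (p i : ℚ)⁻¹ - (p j : ℚ)⁻¹) with hY
  set W := ∑ i, ∑ j, G ((p i : ℚ) - p j, (p i : ℚ)⁻¹ - ((p j : ℚ)⁻¹ + 1)) with hW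
  have hYle : Y ≤ n * (C + 2 * (r : ℝ) ^ 2 + 2) := by
    rw [hY, sum_comm]
    calc _ ≤ ∑ _j : Fin n, (C + 2 * (r : ℝ) ^ 2 + 2) := by
          refine sum_le_sum fun j _ => ?_
          have a1 := abs_le.1 (hE j fun i => (p i : ℚ)⁻¹ - (p j : ℚ)⁻¹)
          have a2 := abs_le.1 (hD _ _ (inj1 j) inj0)
          linarith [a1.2, a2.2]
      _ = _ := by simp; ring
  have hWge : n * (C - 2 * (r : ℝ) ^ 2 - 2) ≤ W := by
    rw [hW, sum_comm]
    calc _ = ∑ _j : Fin n, (C - 2 * (r : ℝ) ^ 2 - 2) := by simp; ring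
      _ ≤ _ := by
          refine sum_le_sum fun j _ => ?_
          have a1 := abs_le.1 (hE j fun i => (p i : ℚ)⁻¹ - ((p j : ℚ)⁻¹ + 1))
          have a2 := abs_le.1 (hD _ _ (inj2 j) inj0)
          linarith [a1.1, a2.1]
  have hYge : δ * (n : ℝ) ^ 2 ≤ Y := by
    have := hpd (Fin n) (fun i => ((p i : ℚ), (p i : ℚ)⁻¹)) (fun _ => 1)
    simpa using this
  have hcs := cs2 hδ.le hpd hs (le_trans (le_abs_self _) (hb 0)) (Fin n) 0
    (fun i => ((p i : ℚ), (p i : ℚ)⁻¹)) (fun i => ((p i : ℚ), (p i : ℚ)⁻¹ + 1))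
  simp only [zero_sub, hs, Prod.mk_sub_mk, add_sub_add_right_eq_sub] at hcs
  have e1 : ∑ i, G ((p i : ℚ), (p i : ℚ)⁻¹) = 0 := sum_eq_zero fun i _ => hz _ (p0 i)
  have e2 : ∑ i, G ((p i : ℚ), (p i : ℚ)⁻¹ + 1) = C := sum_congr rfl fun i _ => hK _ _ (p0 i)
  rw [e1, e2, ← hY, ← hW] at hcs
  rw [hnr] at hYle hWge hYge
  have hC2 : C ^ 2 ≤ (4 * (r : ℝ) ^ 3) ^ 2 := by
    have : (r : ℝ) ^ 4 * 1 ≤ (r : ℝ) ^ 4 * r ^ 2 := by gcongr; nlinarith
    nlinarith
  have hC3 : C ≤ 4 * (r : ℝ) ^ 3 := (abs_le_of_sq_le_sq' hC2 (by positivity)).2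
  have h7 : δ * (r : ℝ) ^ 4 ≤ C + 2 * (r : ℝ) ^ 2 + 2 := by
    have h8 : (r : ℝ) ^ 4 * (δ * (r : ℝ) ^ 4) ≤ (r : ℝ) ^ 4 * (C + 2 * (r : ℝ) ^ 2 + 2) := by
      nlinarith
    exact le_of_mul_le_mul_left h8 (by positivity)
  have h9 : 20 < δ * r := by
    rw [div_lt_iff₀ hδ] at hr; linarith
  have h10 : (r : ℝ) ^ 2 ≤ r ^ 3 := pow_le_pow_right₀ hr1 (by norm_num)
  have h11 : (1 : ℝ) ≤ r ^ 3 := one_le_pow₀ hr1
  have h12 : 20 * (r : ℝ) ^ 3 < δ * r * r ^ 3 := by gcongr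
  nlinarith

end Pool.Agent.H.MP_55e671_nt
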