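import Pool.Agent.H.MP_55e671_nt.A

set_option autoImplicit false
open Finset

namespace Pool.Agent.H.MP_55e671_nt

/-- the hyperbolic rescaling of the plane -/
def sg (l : ℚ) (P : ℚ × ℚ) : ℚ × ℚ := (l * P.1, P.2 / l)

theorem sg_sg (l m : ℚ) (P : ℚ × ℚ) : sg l (sg m P) = sg (l * m) P := by
  simp only [sg, Prod.mk.injEq]
  constructor
  · ring
  · rw [div_div, mul_comm]

theorem sg_sub (l : ℚ) (P Q : ℚ × ℚ) : sg l (P - Q) = sg l P - sg l Q := by
  simp only [sg, Prod.fst_sub, Prod.snd_sub, Prod.mk_sub_mk, Prod.mk.injEq]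
  constructor <;> ring

theorem sg_neg (l : ℚ) (P : ℚ × ℚ) : sg l (-P) = -sg l P := by
  simp only [sg, Prod.fst_neg, Prod.snd_neg, Prod.neg_mk, Prod.mk.injEq]
  constructor <;> ring

theorem sg_one (P : ℚ × ℚ) : sg 1 P = P := by simp [sg]

/-- nonempty, convex, invariant sets of bounded functions -/
def Good (E : Set (ℚ × ℚ → ℝ)) : Prop :=
  E.Nonempty ∧ Convex ℝ E ∧ (∀ l : ℚ, l ≠ 0 → ∀ G ∈ E, (fun P => G (sg l P)) ∈ E) ∧
    ∀ G ∈ E, ∀ P, |G P| ≤ 1

/-- almost invariant functions -/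
def Alm (l : ℚ) (n : ℕ) : Set (ℚ × ℚ → ℝ) := {G | ∀ P, |G (sg l P) - G P| ≤ 2 / (n + 1)}

theorem good_inter {E : Set (ℚ × ℚ → ℝ)} (hE : Good E) (l : ℚ) (hl : l ≠ 0) (n : ℕ) :
    Good (E ∩ Alm l n) := by
  obtain ⟨⟨G, hG⟩, hc, hi, hb⟩ := hE
  have hn : (0 : ℝ) < n + 1 := by positivity
  refine ⟨⟨∑ i ∈ range (n + 1), (1 / ((n : ℝ) + 1)) • fun P => G (sg (l ^ i) P), ?_, ?_⟩, ?_, ?_, ?_⟩
  · refine hc.sum_mem (fun _ _ => by positivity) ?_ (fun i _ => hi _ (pow_ne_zero _ hl) G hG)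
    simp only [sum_const, card_range, nsmul_eq_mul]
    push_cast
    field_simp
  · intro P
    simp only [Finset.sum_apply, Pi.smul_apply, smul_eq_mul, ← mul_sum, sg_sg, ← pow_succ]
    rw [← mul_sub, ← sum_sub_distrib, sum_range_sub (fun i => G (sg (l ^ i) P)), abs_mul,
      abs_of_pos (by positivity)]
    have a1 := abs_le.1 (hb G hG (sg (l ^ (n + 1)) P))
    have a2 := abs_le.1 (hb G hG (sg (l ^ 0) P))
    have : |G (sg (l ^ (n + 1)) P) - G (sg (l ^ 0) P)| ≤ 2 := by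
      rw [abs_le]; constructor <;> linarith
    calc _ ≤ 1 / ((n : ℝ) + 1) * 2 := by gcongr
      _ = _ := by ring
  · refine hc.inter ?_
    intro F hF H hH a b ha hb' hab P
    have h1 := hF P
    have h2 := hH P
    simp only [Pi.add_apply, Pi.smul_apply, smul_eq_mul]
    calc _ = |a * (F (sg l P) - F P) + b * (H (sg l P) - H P)| := by ring_nf
      _ ≤ |a * (F (sg l P) - F P)| + |b * (H (sg l P) - H P)| := abs_add_le _ _
      _ = a * |F (sg l P) - F P| + b * |H (sg l P) - H P| := by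
          rw [abs_mul, abs_mul, abs_of_nonneg ha, abs_of_nonneg hb']
      _ ≤ a * (2 / (n + 1)) + b * (2 / (n + 1)) := by gcongr
      _ = _ := by rw [← add_mul, hab, one_mul]
  · intro m hm F hF
    refine ⟨hi m hm F hF.1, fun P => ?_⟩
    have := hF.2 (sg m P)
    simp only [sg_sg] at this ⊢
    rwa [mul_comm m l]
  · exact fun F hF => hb F hF.1

theorem compact_box : IsCompact {G : ℚ × ℚ → ℝ | ∀ P, |G P| ≤ 1} := by
  have : {G : ℚ × ℚ → ℝ | ∀ P, |G P| ≤ 1} = Set.pi Set.univ fun _ => Set.Icc (-1 : ℝ) 1 := by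
    ext G
    simp only [Set.mem_ofPred_eq, Set.mem_univ_pi, Set.mem_Icc, abs_le]
  rw [this]
  exact isCompact_univ_pi fun _ => isCompact_Icc

theorem exists_inv {E : Set (ℚ × ℚ → ℝ)} (hE : Good E) (hcl : IsClosed E) :
    ∃ G ∈ E, ∀ l : ℚ, l ≠ 0 → ∀ P, G (sg l P) = G P := by
  classical
  have hK : IsCompact E := compact_box.of_isClosed_subset hcl hE.2.2.2
  have h := hK.inter_iInter_nonempty (fun q : {l : ℚ // l ≠ 0} × ℕ => Alm q.1.1 q.2) ?_ ?_
  · obtain ⟨G, hG, hG'⟩ := h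
    refine ⟨G, hG, fun l hl P => ?_⟩
    have h1 : ∀ n : ℕ, |G (sg l P) - G P| ≤ 2 / (n + 1) := fun n =>
      Set.mem_iInter.1 hG' (⟨l, hl⟩, n) P
    have h2 : |G (sg l P) - G P| ≤ 0 := by
      have h3 := tendsto_one_div_add_atTop_nhds_zero_nat (𝕜 := ℝ).const_mul 2
      rw [mul_zero] at h3
      refine ge_of_tendsto' h3 fun n => ?_
      rw [mul_one_div]
      exact h1 n
    exact sub_eq_zero.1 (abs_nonpos_iff.1 h2)
  · intro q
    simp only [Alm, Set.ofPred_forall]
    exact isClosed_iInter fun P => isClosed_le (by fun_prop) continuous_const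
  · intro u
    suffices h : Good (E ∩ ⋂ i ∈ u, Alm i.1.1 i.2) from h.1
    induction u using Finset.induction_on with
    | empty => simpa using hE
    | insert a s _ ih =>
      rw [Finset.set_biInter_insert, Set.inter_comm (Alm _ _), ← Set.inter_assoc]
      exact good_inter ih _ a.1.2 _

theorem no_pd {δ : ℝ} (hδ : 0 < δ) {G : ℚ × ℚ → ℝ} (hpd : PD δ G) (hs : ∀ P, G (-P) = G P)
    (hb : ∀ P, |G P| ≤ 1) (hz : ∀ t : ℚ, t ≠ 0 → G (t, t⁻¹) = 0) : False := by
  let E : Set (ℚ × ℚ → ℝ) := {G | PD δ G ∧ (∀ P, G (-P) = G P) ∧ (∀ P, |G P| ≤ 1) ∧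
    ∀ t : ℚ, t ≠ 0 → G (t, t⁻¹) = 0}
  have hE : Good E := by
    refine ⟨⟨G, hpd, hs, hb, hz⟩, ?_, ?_, fun F hF => hF.2.2.1⟩
    · rintro F ⟨f1, f2, f3, f4⟩ H ⟨g1, g2, g3, g4⟩ a b ha hb' hab
      refine ⟨?_, ?_, ?_, ?_⟩
      · intro ι _ P c
        have h1 := f1 ι P c
        have h2 := g1 ι P c
        have e : ∑ i, ∑ j, c i * c j * (a • F + b • H) (P i - P j) =
            a * ∑ i, ∑ j, c i * c j * F (P i - P j) + b * ∑ i, ∑ j, c i * c j * H (P i - P j) := by
          simp only [mul_sum, ← sum_add_distrib, Pi.add_apply, Pi.smul_apply, smul_eq_mul]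
          exact sum_congr rfl fun i _ => sum_congr rfl fun j _ => by ring
        rw [e]
        calc _ = a * (δ * (∑ i, c i) ^ 2) + b * (δ * (∑ i, c i) ^ 2) := by
              rw [← add_mul, hab, one_mul]
          _ ≤ _ := by gcongr
      · intro P
        simp [f2, g2]
      · intro P
        simp only [Pi.add_apply, Pi.smul_apply, smul_eq_mul]
        calc _ ≤ |a * F P| + |b * H P| := abs_add_le _ _
          _ = a * |F P| + b * |H P| := by
            rw [abs_mul, abs_mul, abs_of_nonneg ha, abs_of_nonneg hb']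
          _ ≤ a * 1 + b * 1 := by gcongr <;> simp [f3, g3]
          _ = 1 := by linarith
      · intro t ht
        simp [f4 t ht, g4 t ht]
    · rintro l hl F ⟨f1, f2, f3, f4⟩
      refine ⟨?_, ?_, ?_, ?_⟩
      · intro ι _ P c
        simpa only [sg_sub] using f1 ι (fun i => sg l (P i)) c
      · intro P
        simp only [sg_neg, f2]
      · exact fun P => f3 _
      · intro t ht
        have := f4 (l * t) (mul_ne_zero hl ht)
        simp only [sg]
        rw [← this]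
        congr 2
        field_simp
  have hcl : IsClosed E := by
    simp only [E, PD, Set.ofPred_and, Set.ofPred_forall]
    refine IsClosed.inter ?_ (IsClosed.inter ?_ (IsClosed.inter ?_ ?_))
    · exact isClosed_iInter fun ι => isClosed_iInter fun _ => isClosed_iInter fun P =>
        isClosed_iInter fun c => isClosed_le continuous_const (by fun_prop)
    · exact isClosed_iInter fun P => isClosed_eq (by fun_prop) (by fun_prop)
    · exact isClosed_iInter fun P => isClosed_le (by fun_prop) continuous_const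
    · exact isClosed_iInter fun t => isClosed_iInter fun _ => isClosed_eq (by fun_prop) (by fun_prop)
  obtain ⟨F, ⟨f1, f2, f3, f4⟩, hi⟩ := exists_inv hE hcl
  exact no_inv hδ f1 f2 f3 (fun l hl a b => hi l hl (a, b)) f4

theorem no_seq {δ : ℝ} (hδ : 0 < δ) (G : ℕ → ℚ × ℚ → ℝ)
    (hpd : ∀ (ι : Type) [Fintype ι] (P : ι → ℚ × ℚ) (c : ι → ℝ), ∀ᶠ k in Filter.atTop,
      δ * (∑ i, c i) ^ 2 ≤ ∑ i, ∑ j, c i * c j * G k (P i - P j))
    (hs : ∀ P, ∀ᶠ k in Filter.atTop, G k (-P) = G k P)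
    (hb : ∀ k P, |G k P| ≤ 1)
    (hz : ∀ t : ℚ, t ≠ 0 → ∀ᶠ k in Filter.atTop, G k (t, t⁻¹) = 0) : False := by
  let U : Ultrafilter ℕ := Ultrafilter.of Filter.atTop
  have hU : (U : Filter ℕ) ≤ Filter.atTop := Ultrafilter.of_le _
  obtain ⟨F, hF, hlim⟩ := compact_box.ultrafilter_le_nhds (U.map G) (by
    simp only [Ultrafilter.coe_map, Filter.le_principal_iff, Filter.mem_map]
    exact Filter.univ_mem' fun k => hb k)
  have ht : ∀ P, Filter.Tendsto (fun k => G k P) U (nhds (F P)) := tendsto_pi_nhds.1 hlim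
  refine no_pd hδ (G := F) ?_ ?_ hF ?_
  · intro ι _ P c
    refine ge_of_tendsto (tendsto_finsetSum _ fun i _ => tendsto_finsetSum _ fun j _ =>
      (ht (P i - P j)).const_mul (c i * c j)) (hU (hpd ι P c))
  · intro P
    exact tendsto_nhds_unique_of_eventuallyEq (ht (-P)) (ht P) (hU (hs P))
  · intro t h0
    exact tendsto_nhds_unique_of_eventuallyEq (ht _) tendsto_const_nhds (hU (hz t h0))

end Pool.Agent.H.MP_55e671_nt
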