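import Pool.Agent.H.MP_55e671_nt.B

set_option autoImplicit false
open Finset

namespace Pool.Agent.H.MP_55e671_nt

/-- autocorrelation count -/
def cnt (F : Finset (ℤ × ℤ)) (d : ℤ × ℤ) : ℕ := (F.filter fun p => p + d ∈ F).card

theorem cnt_le (F : Finset (ℤ × ℤ)) (d : ℤ × ℤ) : cnt F d ≤ F.card := card_filter_le _ _

theorem cnt_neg (F : Finset (ℤ × ℤ)) (d : ℤ × ℤ) : cnt F (-d) = cnt F d := by
  refine card_nbij' (fun p => p + -d) (fun p => p + d) ?_ ?_ ?_ ?_
  · intro p hp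
    simp only [coe_filter, Set.mem_ofPred_eq] at hp ⊢
    exact ⟨hp.2, by simpa using hp.1⟩
  · intro p hp
    simp only [coe_filter, Set.mem_ofPred_eq] at hp ⊢
    exact ⟨hp.2, by simpa using hp.1⟩
  · intro p _; simp
  · intro p _; simp

theorem cnt_pd (F Z : Finset (ℤ × ℤ)) (ι : Type) [Fintype ι] (x : ι → ℤ × ℤ) (c : ι → ℝ)
    (hZ : ∀ i, ∀ p ∈ F, p - x i ∈ Z) :
    (∑ i, c i) ^ 2 * (F.card : ℝ) ^ 2 ≤
      Z.card * ∑ i, ∑ j, c i * c j * (cnt F (x i - x j) : ℝ) := by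
  have h1 : ∀ i j, (cnt F (x i - x j) : ℝ) =
      ∑ z ∈ Z, (if z + x i ∈ F then (1 : ℝ) else 0) * (if z + x j ∈ F then (1 : ℝ) else 0) := by
    intro i j
    simp only [ite_zero_mul_ite_zero, mul_one, sum_boole, cnt, Nat.cast_inj]
    refine card_nbij' (fun p => p - x j) (fun p => p + x j) ?_ ?_ ?_ ?_
    · intro p hp
      simp only [coe_filter, Set.mem_ofPred_eq] at hp ⊢
      refine ⟨hZ j p hp.1, ?_, by simpa using hp.1⟩
      convert hp.2 using 1; abel
    · intro p hp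
      simp only [coe_filter, Set.mem_ofPred_eq] at hp ⊢
      refine ⟨hp.2.2, ?_⟩
      convert hp.2.1 using 1; abel
    · intro p _; simp
    · intro p _; simp
  have h2 : ∀ i, ∑ z ∈ Z, (if z + x i ∈ F then (1 : ℝ) else 0) = F.card := by
    intro i
    simp only [sum_boole, Nat.cast_inj]
    refine card_nbij' (fun p => p + x i) (fun p => p - x i) ?_ ?_ ?_ ?_
    · intro p hp
      simp only [coe_filter, Set.mem_ofPred_eq] at hp ⊢
      exact hp.2
    · intro p hp
      simp only [coe_filter, Set.mem_ofPred_eq] at hp ⊢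
      exact ⟨hZ i p hp, by simpa using hp⟩
    · intro p _; simp
    · intro p _; simp
  have h3 : ∑ i, ∑ j, c i * c j * (cnt F (x i - x j) : ℝ) =
      ∑ z ∈ Z, (∑ i, c i * (if z + x i ∈ F then (1 : ℝ) else 0)) ^ 2 := by
    simp only [sq, sum_mul_sum]
    simp only [h1, mul_sum]
    rw [sum_comm (s := Z)]
    refine sum_congr rfl fun i _ => ?_
    rw [sum_comm (s := Z)]
    exact sum_congr rfl fun j _ => sum_congr rfl fun z _ => by ring
  have h4 : (∑ i, c i) * (F.card : ℝ) =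
      ∑ z ∈ Z, ∑ i, c i * (if z + x i ∈ F then (1 : ℝ) else 0) := by
    rw [sum_comm, sum_mul]
    exact sum_congr rfl fun i _ => by rw [← mul_sum, h2]
  rw [h3, ← mul_pow, h4]
  exact sq_sum_le_card_mul_sum_sq

theorem ev_int (q : ℚ) : ∀ᶠ k : ℕ in Filter.atTop,
    ∃ z : ℤ, (z : ℚ) = (k.factorial : ℚ) * q ∧ |z| ≤ k * k.factorial := by
  obtain ⟨N, hN⟩ := exists_nat_ge |q|
  filter_upwards [Filter.eventually_ge_atTop q.den, Filter.eventually_ge_atTop N] with k h1 h2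
  obtain ⟨m, hm⟩ := Nat.dvd_factorial q.den_pos h1
  have e : ((m * q.num : ℤ) : ℚ) = (k.factorial : ℚ) * q := by
    rw [hm]; push_cast
    rw [mul_comm (q.den : ℚ), mul_assoc, Rat.den_mul_eq_num]
  refine ⟨m * q.num, e, ?_⟩
  have : (|((m * q.num : ℤ) : ℚ)|) ≤ k * k.factorial := by
    rw [e, abs_mul, abs_of_nonneg (by positivity), mul_comm]
    have : |q| ≤ k := hN.trans (by exact_mod_cast h2)
    gcongr
  exact_mod_cast this

theorem main (A : Set (ℕ × ℕ)) (ε : ℝ) (hε : 0 < ε)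
    (hA : ∀ N : ℕ, ∃ a b m n : ℕ, N ≤ m ∧ N ≤ n ∧
        ε * ((m : ℝ) * (n : ℝ)) ≤
          (({p : ℕ × ℕ | p ∈ A ∧ a ≤ p.1 ∧ p.1 < a + m ∧ b ≤ p.2 ∧ p.2 < b + n}.ncard : ℕ) : ℝ))
    (w : ℕ → ℤ) (hw : ∀ k : ℕ, ∀ p ∈ A, ∀ q ∈ A,
      ((p.1 : ℤ) - (q.1 : ℤ)) * ((p.2 : ℤ) - (q.2 : ℤ)) ≠ w k * (k.factorial : ℤ) ^ 2) : False := by
  classical
  have hbox : ∀ N : ℕ, ∃ (F Z : Finset (ℤ × ℤ)) (V : ℝ), 0 < V ∧ ε * V ≤ F.card ∧ F.card ≤ V ∧
      (Z.card : ℝ) ≤ 9 * V ∧ (∀ x : ℤ × ℤ, |x.1| ≤ N → |x.2| ≤ N → ∀ p ∈ F, p - x ∈ Z) ∧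
      ∀ p ∈ F, ∃ q ∈ A, p = ((q.1 : ℤ), (q.2 : ℤ)) := by
    intro N
    obtain ⟨a, b, m, n, hm, hn, h⟩ := hA (N + 1)
    let S : Finset (ℕ × ℕ) := ((Ico a (a + m)) ×ˢ (Ico b (b + n))).filter (· ∈ A)
    have hS : {p : ℕ × ℕ | p ∈ A ∧ a ≤ p.1 ∧ p.1 < a + m ∧ b ≤ p.2 ∧ p.2 < b + n} = ↑S := by
      ext p
      simp only [S, Set.mem_ofPred_eq, coe_filter, mem_product, mem_Ico]
      tauto
    rw [hS, Set.ncard_coe_finset] at h
    have hinj : Function.Injective fun q : ℕ × ℕ => ((q.1 : ℤ), (q.2 : ℤ)) := by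
      intro p q hpq
      simp only [Prod.mk.injEq, Nat.cast_inj] at hpq
      exact Prod.ext hpq.1 hpq.2
    have hm0 : (0 : ℝ) < m := by exact_mod_cast (by omega : 0 < m)
    have hn0 : (0 : ℝ) < n := by exact_mod_cast (by omega : 0 < n)
    refine ⟨S.image fun q => ((q.1 : ℤ), (q.2 : ℤ)),
      (Ico ((a : ℤ) - m) (a + 2 * m)) ×ˢ (Ico ((b : ℤ) - n) (b + 2 * n)), (m : ℝ) * n,
      by positivity, ?_, ?_, ?_, ?_, ?_⟩
    · rwa [card_image_of_injective _ hinj]
    · rw [card_image_of_injective _ hinj]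
      have : S.card ≤ m * n := by
        refine (card_filter_le _ _).trans ?_
        simp
      exact_mod_cast this
    · rw [card_product, Int.card_Ico, Int.card_Ico]
      have e1 : ((a : ℤ) + 2 * m - (a - m)).toNat = 3 * m := by omega
      have e2 : ((b : ℤ) + 2 * n - (b - n)).toNat = 3 * n := by omega
      rw [e1, e2]; push_cast; linarith
    · intro x h1 h2 p hp
      obtain ⟨q, hq, rfl⟩ := mem_image.1 hp
      simp only [S, mem_filter, mem_product, mem_Ico] at hq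
      simp only [mem_product, mem_Ico, Prod.fst_sub, Prod.snd_sub]
      rw [abs_le] at h1 h2
      omega
    · intro p hp
      obtain ⟨q, hq, rfl⟩ := mem_image.1 hp
      exact ⟨q, (mem_filter.1 hq).2, rfl⟩
  choose F Z V hV hεF hFV hZV hZ hFA using hbox
  let N : ℕ → ℕ := fun k => (|w k|.toNat + 1) * (k * k.factorial)
  let φ : ℕ → ℚ × ℚ → ℤ × ℤ := fun k P =>
    (⌊(k.factorial : ℚ) * P.1⌋, w k * ⌊(k.factorial : ℚ) * P.2⌋)
  refine no_seq (δ := ε ^ 2 / 9) (by positivity)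
    (fun k P => (cnt (F (N k)) (φ k P) : ℝ) / V (N k)) ?_ ?_ ?_ ?_
  · intro ι _ P c
    have h1 := Filter.eventually_all.2 fun i => ev_int (P i).1
    have h2 := Filter.eventually_all.2 fun i => ev_int (P i).2
    filter_upwards [h1, h2] with k h1 h2
    choose u hu hu' using h1
    choose v hv hv' using h2
    have e : ∀ i j, φ k (P i - P j) = (u i, w k * v i) - (u j, w k * v j) := by
      intro i j
      simp only [φ, Prod.fst_sub, Prod.snd_sub, mul_sub, ← hu, ← hv, ← Int.cast_sub,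
        Int.floor_intCast, Prod.mk_sub_mk]
    have hN : ((N k : ℕ) : ℤ) = (|w k| + 1) * (k * k.factorial) := by
      simp only [N]; push_cast
      rw [Int.toNat_of_nonneg (abs_nonneg _)]
    have h := cnt_pd (F (N k)) (Z (N k)) ι (fun i => (u i, w k * v i)) c (by
      intro i
      refine hZ (N k) _ ?_ ?_
      · rw [hN]
        have := hu' i
        have := abs_nonneg (w k)
        have : (0 : ℤ) ≤ k * k.factorial := by positivity
        simp only
        nlinarith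
      · rw [hN]
        have := hv' i
        have := abs_nonneg (w k)
        have : (0 : ℤ) ≤ k * k.factorial := by positivity
        simp only [abs_mul]
        nlinarith)
    simp only [e, ← mul_div_assoc, ← sum_div]
    set T := ∑ i, ∑ j, c i * c j * (cnt (F (N k)) ((u i, w k * v i) - (u j, w k * v j)) : ℝ)
    have hV' := hV (N k)
    have h5 : (ε * V (N k)) ^ 2 ≤ ((F (N k)).card : ℝ) ^ 2 := by
      have := hεF (N k)
      gcongr
    have h6 : (∑ i, c i) ^ 2 * (ε * V (N k)) ^ 2 ≤ (Z (N k)).card * T :=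
      le_trans (by gcongr) h
    rw [le_div_iff₀ hV']
    by_cases hT : 0 ≤ T
    · have h7 : (Z (N k)).card * T ≤ 9 * V (N k) * T := by
        have := hZV (N k)
        gcongr
      have h8 : V (N k) * (ε ^ 2 / 9 * (∑ i, c i) ^ 2 * V (N k)) ≤ V (N k) * T := by
        nlinarith
      exact le_of_mul_le_mul_left h8 hV'
    · exfalso
      have hF0 : 0 < ((F (N k)).card : ℝ) := lt_of_lt_of_le (by positivity) (hεF (N k))
      have hF1 : 0 < (F (N k)).card := by exact_mod_cast hF0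
      obtain ⟨p, hp⟩ := card_pos.1 hF1
      have hZ1 : 0 < (Z (N k)).card := card_pos.2 ⟨_, hZ (N k) 0 (by simp) (by simp) p hp⟩
      have hZ0 : (0 : ℝ) < (Z (N k)).card := by exact_mod_cast hZ1
      have : (0 : ℝ) ≤ (∑ i, c i) ^ 2 * (ε * V (N k)) ^ 2 := by positivity
      nlinarith
  · intro P
    filter_upwards [ev_int P.1, ev_int P.2] with k h1 h2
    obtain ⟨u, hu, -⟩ := h1
    obtain ⟨v, hv, -⟩ := h2
    have e : φ k (-P) = -φ k P := by
      simp only [φ, Prod.fst_neg, Prod.snd_neg, mul_neg, ← hu, ← hv, ← Int.cast_neg,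
        Int.floor_intCast, Prod.neg_mk]
    simp only [e, cnt_neg]
  · intro k P
    have hV' := hV (N k)
    rw [abs_of_nonneg (by positivity), div_le_one hV']
    refine le_trans ?_ (hFV (N k))
    exact_mod_cast cnt_le _ _
  · intro t ht
    filter_upwards [ev_int t, ev_int t⁻¹] with k h1 h2
    obtain ⟨u, hu, -⟩ := h1
    obtain ⟨v, hv, -⟩ := h2
    have e : φ k (t, t⁻¹) = (u, w k * v) := by
      simp only [φ, ← hu, ← hv, Int.floor_intCast]
    have huv : u * v = (k.factorial : ℤ) ^ 2 := by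
      have : (u : ℚ) * v = (k.factorial : ℚ) ^ 2 := by
        rw [hu, hv]; field_simp
      exact_mod_cast this
    have : cnt (F (N k)) (u, w k * v) = 0 := by
      rw [cnt, card_eq_zero, filter_eq_empty_iff]
      intro p hp hp'
      obtain ⟨q, hq, rfl⟩ := hFA _ _ hp
      obtain ⟨q', hq', h⟩ := hFA _ _ hp'
      simp only [Prod.mk_add_mk, Prod.mk.injEq] at h
      apply hw k q' hq' q hq
      rw [← h.1, ← h.2, ← huv]
      ring
    simp only [e, this, Nat.cast_zero, zero_div]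

end Pool.Agent.H.MP_55e671_nt
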